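import Pool.Agent.U136.DS.Stm

set_option autoImplicit false

/-!
Project DS, part S3: sums over triads.
-/

namespace Pool.Agent.U401.DS

open Pool.Agent.N983.RT Pool.Agent.U136.DS

theorem nsq_nonneg (k : Wv) : 0 ≤ nsq k := Finset.sum_nonneg fun _ _ => sq_nonneg _

theorem nsq_neg (k : Wv) : nsq (-k) = nsq k := by simp [nsq]

theorem one_le_nsq {k : Wv} (hk : k ≠ 0) : 1 ≤ nsq k := by
  obtain ⟨i, hi⟩ : ∃ i, k i ≠ 0 := by
    by_contra h
    push Not at h
    exact hk (funext h)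
  have h1 : (1 : ℝ) ≤ (k i : ℝ) ^ 2 := by
    have h2 : (1 : ℤ) ≤ (k i) ^ 2 := by
      have : 0 < (k i) ^ 2 := by positivity
      omega
    exact_mod_cast h2
  exact h1.trans
    (Finset.single_le_sum (f := fun i => (k i : ℝ) ^ 2) (fun j _ => sq_nonneg _)
      (Finset.mem_univ i))

theorem nsq_add_le (k l : Wv) : nsq (k + l) ≤ 2 * nsq k + 2 * nsq l := by
  unfold nsq
  rw [Finset.mul_sum, Finset.mul_sum, ← Finset.sum_add_distrib]
  refine Finset.sum_le_sum fun i _ => ?_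
  have : ((k + l) i : ℝ) = (k i : ℝ) + (l i : ℝ) := by simp
  rw [this]
  nlinarith [sq_nonneg ((k i : ℝ) - (l i : ℝ))]

/-- the elementary inequality -/
theorem key (p a M x y z : ℝ) (hp : 0 ≤ p) (ha : 0 < a) (hz : 0 < z) (hzM : z ≤ M)
    (hx : 0 < x) (hy : 0 < y) (hMx : M ≤ 4 * x) (hMy : M ≤ 4 * y) :
    M ^ (p / 2) ≤ 4 ^ (p / 2 + a) * (z ^ (-a) * (x ^ ((p / 2 + a) / 2) * y ^ ((p / 2 + a) / 2))) := by
  have hM : 0 < M := hz.trans_le hzM
  have hq : 0 ≤ (p / 2 + a) / 2 := by positivity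
  have e1 : M ^ (p / 2) = M ^ (-a) * (M ^ ((p / 2 + a) / 2) * M ^ ((p / 2 + a) / 2)) := by
    rw [← Real.rpow_add hM, ← Real.rpow_add hM]
    congr 1
    ring
  have e2 : (4 : ℝ) ^ (p / 2 + a) = 4 ^ ((p / 2 + a) / 2) * 4 ^ ((p / 2 + a) / 2) := by
    rw [← Real.rpow_add (by norm_num)]
    congr 1
    ring
  have h1 : M ^ (-a) ≤ z ^ (-a) := Real.rpow_le_rpow_of_nonpos hz hzM (by linarith)
  have h2 : M ^ ((p / 2 + a) / 2) ≤ 4 ^ ((p / 2 + a) / 2) * x ^ ((p / 2 + a) / 2) := by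
    rw [← Real.mul_rpow (by norm_num) hx.le]
    exact Real.rpow_le_rpow hM.le hMx hq
  have h3 : M ^ ((p / 2 + a) / 2) ≤ 4 ^ ((p / 2 + a) / 2) * y ^ ((p / 2 + a) / 2) := by
    rw [← Real.mul_rpow (by norm_num) hy.le]
    exact Real.rpow_le_rpow hM.le hMy hq
  rw [e1, e2]
  calc M ^ (-a) * (M ^ ((p / 2 + a) / 2) * M ^ ((p / 2 + a) / 2))
      ≤ z ^ (-a) * ((4 ^ ((p / 2 + a) / 2) * x ^ ((p / 2 + a) / 2)) *
          (4 ^ ((p / 2 + a) / 2) * y ^ ((p / 2 + a) / 2))) := by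
        gcongr
    _ = _ := by ring

/-- the inequality for triads -/
theorem triad (p a : ℝ) (hp : 0 ≤ p) (ha : 0 < a) (k l m : Wv) (hk : k ≠ 0) (hl : l ≠ 0)
    (hm : m ≠ 0) (h : k + l + m = 0) :
    mx k l m ^ (p / 2) ≤ 4 ^ (p / 2 + a) *
      (nsq k ^ (-a) * (nsq l ^ ((p / 2 + a) / 2) * nsq m ^ ((p / 2 + a) / 2)) +
       nsq l ^ (-a) * (nsq k ^ ((p / 2 + a) / 2) * nsq m ^ ((p / 2 + a) / 2)) +
       nsq m ^ (-a) * (nsq k ^ ((p / 2 + a) / 2) * nsq l ^ ((p / 2 + a) / 2))) := by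
  have k1 := one_le_nsq hk
  have l1 := one_le_nsq hl
  have m1 := one_le_nsq hm
  have ek : nsq k ≤ 2 * nsq l + 2 * nsq m := by
    have : k = -(l + m) := by
      have := h
      rw [add_assoc] at this
      exact eq_neg_of_add_eq_zero_left this
    rw [this, nsq_neg]
    exact nsq_add_le l m
  have el : nsq l ≤ 2 * nsq k + 2 * nsq m := by
    have : l = -(k + m) := by
      have h' : l + (k + m) = 0 := by rw [← h]; abel
      exact eq_neg_of_add_eq_zero_left h'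
    rw [this, nsq_neg]
    exact nsq_add_le k m
  have em : nsq m ≤ 2 * nsq k + 2 * nsq l := by
    have : m = -(k + l) := by
      have h' : m + (k + l) = 0 := by rw [← h]; abel
      exact eq_neg_of_add_eq_zero_left h'
    rw [this, nsq_neg]
    exact nsq_add_le k l
  have p4 : (0 : ℝ) ≤ 4 ^ (p / 2 + a) := by positivity
  have t1 : 0 ≤ nsq k ^ (-a) * (nsq l ^ ((p / 2 + a) / 2) * nsq m ^ ((p / 2 + a) / 2)) := by
    have := nsq_nonneg k
    have := nsq_nonneg l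
    have := nsq_nonneg m
    positivity
  have t2 : 0 ≤ nsq l ^ (-a) * (nsq k ^ ((p / 2 + a) / 2) * nsq m ^ ((p / 2 + a) / 2)) := by
    have := nsq_nonneg k
    have := nsq_nonneg l
    have := nsq_nonneg m
    positivity
  have t3 : 0 ≤ nsq m ^ (-a) * (nsq k ^ ((p / 2 + a) / 2) * nsq l ^ ((p / 2 + a) / 2)) := by
    have := nsq_nonneg k
    have := nsq_nonneg l
    have := nsq_nonneg m
    positivity
  have hM : mx k l m = max (nsq k) (max (nsq l) (nsq m)) := rfl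
  rcases le_total (nsq k) (nsq l) with h1 | h1
  · rcases le_total (nsq k) (nsq m) with h2 | h2
    · -- k minimal
      refine (key p a (mx k l m) (nsq l) (nsq m) (nsq k) hp ha (by linarith)
        (le_max_left _ _) (by linarith) (by linarith) ?_ ?_).trans ?_
      · exact max_le (by linarith) (max_le (by linarith) (by linarith))
      · exact max_le (by linarith) (max_le (by linarith) (by linarith))
      · exact mul_le_mul_of_nonneg_left (by linarith) p4
    · -- m minimal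
      refine (key p a (mx k l m) (nsq k) (nsq l) (nsq m) hp ha (by linarith)
        ((le_max_right _ _).trans (le_max_right _ _)) (by linarith) (by linarith) ?_ ?_).trans ?_
      · exact max_le (by linarith) (max_le (by linarith) (by linarith))
      · exact max_le (by linarith) (max_le (by linarith) (by linarith))
      · exact mul_le_mul_of_nonneg_left (by linarith) p4
  · rcases le_total (nsq l) (nsq m) with h2 | h2
    · -- l minimal
      refine (key p a (mx k l m) (nsq k) (nsq m) (nsq l) hp ha (by linarith)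
        ((le_max_left _ _).trans (le_max_right _ _)) (by linarith) (by linarith) ?_ ?_).trans ?_
      · exact max_le (by linarith) (max_le (by linarith) (by linarith))
      · exact max_le (by linarith) (max_le (by linarith) (by linarith))
      · exact mul_le_mul_of_nonneg_left (by linarith) p4
    · -- m minimal
      refine (key p a (mx k l m) (nsq k) (nsq l) (nsq m) hp ha (by linarith)
        ((le_max_right _ _).trans (le_max_right _ _)) (by linarith) (by linarith) ?_ ?_).trans ?_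
      · exact max_le (by linarith) (max_le (by linarith) (by linarith))
      · exact max_le (by linarith) (max_le (by linarith) (by linarith))
      · exact mul_le_mul_of_nonneg_left (by linarith) p4

/-! Sums. -/

theorem shift (n : ℕ) (B : Wv → ℝ) (hB : ∀ k, 0 ≤ B k) (h0 : ∀ k, k ∉ cub n → B k = 0) (k : Wv) :
    ∑ l ∈ cub n, B (-(k + l)) ≤ ∑ l ∈ cub n, B l := by
  classical
  have h1 : ∑ l ∈ cub n, B (-(k + l)) = ∑ x ∈ (cub n).image (fun l => -(k + l)), B x := by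
    rw [Finset.sum_image]
    intro a _ b _ h
    simpa using h
  rw [h1]
  have h2 : ∑ x ∈ ((cub n).image (fun l => -(k + l))).filter (· ∈ cub n), B x =
      ∑ x ∈ (cub n).image (fun l => -(k + l)), B x := by
    refine Finset.sum_filter_of_ne fun x _ hx => ?_
    by_contra hc
    exact hx (h0 x hc)
  rw [← h2]
  refine Finset.sum_le_sum_of_subset_of_nonneg ?_ fun x _ _ => hB x
  intro x hx
  exact (Finset.mem_filter.1 hx).2

theorem pair1 (n : ℕ) (A B : Wv → ℝ) :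
    ∑ k ∈ cub n, ∑ l ∈ cub n, A k * B l = (∑ k ∈ cub n, A k) * ∑ k ∈ cub n, B k := by
  rw [Finset.sum_mul_sum]

theorem pair2 (n : ℕ) (A B : Wv → ℝ) (hA : ∀ k, 0 ≤ A k) (hB : ∀ k, 0 ≤ B k)
    (h0 : ∀ k, k ∉ cub n → B k = 0) :
    ∑ k ∈ cub n, ∑ l ∈ cub n, A k * B (-(k + l)) ≤ (∑ k ∈ cub n, A k) * ∑ k ∈ cub n, B k := by
  rw [Finset.sum_mul]
  refine Finset.sum_le_sum fun k _ => ?_
  rw [← Finset.mul_sum]
  exact mul_le_mul_of_nonneg_left (shift n B hB h0 k) (hA k)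

theorem pair3 (n : ℕ) (A B : Wv → ℝ) (hA : ∀ k, 0 ≤ A k) (hB : ∀ k, 0 ≤ B k)
    (h0 : ∀ k, k ∉ cub n → B k = 0) :
    ∑ k ∈ cub n, ∑ l ∈ cub n, A l * B (-(k + l)) ≤ (∑ k ∈ cub n, A k) * ∑ k ∈ cub n, B k := by
  rw [Finset.sum_comm]
  refine le_trans (le_of_eq ?_) (pair2 n A B hA hB h0)
  refine Finset.sum_congr rfl fun k _ => Finset.sum_congr rfl fun l _ => ?_
  rw [add_comm l k]

/-- the trilinear sum -/
theorem tri_sum (n : ℕ) (G F : Wv → ℝ) (hG : ∀ k, 0 ≤ G k) (_hF : ∀ k, 0 ≤ F k)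
    (G0 : ∀ k, k ∉ cub n → G k = 0) (F0 : ∀ k, k ∉ cub n → F k = 0) :
    ∑ k ∈ cub n, ∑ l ∈ cub n, (G k * (F l * F (-(k + l))) + G l * (F k * F (-(k + l))) +
      G (-(k + l)) * (F k * F l)) ≤ 3 * ((∑ k ∈ cub n, G k) * ∑ k ∈ cub n, F k ^ 2) := by
  have q0 : ∀ k, 0 ≤ F k ^ 2 := fun k => sq_nonneg _
  have q1 : ∀ k, k ∉ cub n → F k ^ 2 = 0 := fun k hk => by rw [F0 k hk]; norm_num
  have s1 := pair1 n G (fun k => F k ^ 2)
  have s2 := pair2 n G (fun k => F k ^ 2) hG q0 q1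
  have s3 := pair1 n (fun k => F k ^ 2) G
  have s4 := pair3 n G (fun k => F k ^ 2) hG q0 q1
  have s5 := pair2 n (fun k => F k ^ 2) G q0 hG G0
  have s6 := pair3 n (fun k => F k ^ 2) G q0 hG G0
  have hle : ∑ k ∈ cub n, ∑ l ∈ cub n, (G k * (F l * F (-(k + l))) + G l * (F k * F (-(k + l))) +
      G (-(k + l)) * (F k * F l)) ≤
      ∑ k ∈ cub n, ∑ l ∈ cub n, (1 / 2 * (G k * F l ^ 2) + 1 / 2 * (G k * F (-(k + l)) ^ 2) +
        1 / 2 * (F k ^ 2 * G l) + 1 / 2 * (G l * F (-(k + l)) ^ 2) +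
        1 / 2 * (F k ^ 2 * G (-(k + l))) + 1 / 2 * (F l ^ 2 * G (-(k + l)))) := by
    refine Finset.sum_le_sum fun k _ => Finset.sum_le_sum fun l _ => ?_
    have a1 := mul_nonneg (hG k) (sq_nonneg (F l - F (-(k + l))))
    have a2 := mul_nonneg (hG l) (sq_nonneg (F k - F (-(k + l))))
    have a3 := mul_nonneg (hG (-(k + l))) (sq_nonneg (F k - F l))
    nlinarith
  refine hle.trans ?_
  have hs : ∀ (X : Wv → Wv → ℝ), ∑ k ∈ cub n, ∑ l ∈ cub n, 1 / 2 * X k l =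
      1 / 2 * ∑ k ∈ cub n, ∑ l ∈ cub n, X k l := by
    intro X
    rw [Finset.mul_sum]
    refine Finset.sum_congr rfl fun k _ => ?_
    rw [Finset.mul_sum]
  simp only [Finset.sum_add_distrib]
  rw [hs (fun k l => G k * F l ^ 2), hs (fun k l => G k * F (-(k + l)) ^ 2),
    hs (fun k l => F k ^ 2 * G l), hs (fun k l => G l * F (-(k + l)) ^ 2),
    hs (fun k l => F k ^ 2 * G (-(k + l))), hs (fun k l => F l ^ 2 * G (-(k + l)))]
  have s3' : ∑ k ∈ cub n, ∑ l ∈ cub n, F k ^ 2 * G l =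
      (∑ k ∈ cub n, F k ^ 2) * ∑ k ∈ cub n, G k := s3
  have c1 : (∑ k ∈ cub n, F k ^ 2) * ∑ k ∈ cub n, G k =
      (∑ k ∈ cub n, G k) * ∑ k ∈ cub n, F k ^ 2 := mul_comm _ _
  rw [c1] at s5 s6 s3'
  linarith

/-! The lattice sum. -/

theorem one_dim (δ : ℝ) (hδ : 0 < δ) : ∃ K : ℝ, 0 ≤ K ∧ ∀ n : ℕ,
    ∑ j ∈ Finset.Icc (-(n : ℤ)) n, (1 + (j : ℝ) ^ 2) ^ (-(1 / 2 + δ)) ≤ K := by
  have h1 : Summable fun j : ℤ => |(j : ℝ)| ^ (-(1 + 2 * δ)) :=
    Real.summable_abs_int_rpow (by linarith)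
  have h2 : Summable fun j : ℤ => if j = 0 then (1 : ℝ) else 0 :=
    summable_of_ne_finset_zero (s := {0}) fun j hj => by simp at hj; simp [hj]
  have h3 : Summable fun j : ℤ => (1 + (j : ℝ) ^ 2) ^ (-(1 / 2 + δ)) := by
    refine Summable.of_nonneg_of_le (fun j => by positivity) (fun j => ?_) (h1.add h2)
    by_cases hj : j = 0
    · subst hj
      have : (0 : ℝ) ≤ |((0 : ℤ) : ℝ)| ^ (-(1 + 2 * δ)) := by positivity
      simp only [if_true]
      have e : (1 + (((0 : ℤ) : ℝ)) ^ 2) ^ (-(1 / 2 + δ)) = 1 := by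
        norm_num
      rw [e]
      linarith
    · have hj' : 0 < |(j : ℝ)| := abs_pos.2 (by exact_mod_cast hj)
      simp only [if_neg hj, add_zero]
      have e : |(j : ℝ)| ^ (-(1 + 2 * δ)) = (|(j : ℝ)| ^ 2) ^ (-(1 / 2 + δ)) := by
        rw [← Real.rpow_natCast, ← Real.rpow_mul hj'.le]
        congr 1
        push_cast
        ring
      rw [e]
      refine Real.rpow_le_rpow_of_nonpos (by positivity) ?_ (by linarith)
      rw [sq_abs]
      linarith
  refine ⟨∑' j : ℤ, (1 + (j : ℝ) ^ 2) ^ (-(1 / 2 + δ)), tsum_nonneg fun j => by positivity,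
    fun n => h3.sum_le_tsum _ fun j _ => by positivity⟩

theorem nsq_rpow_le (δ : ℝ) (hδ : 0 < δ) {k : Wv} (hk : k ≠ 0) :
    nsq k ^ (-(3 / 2 + 3 * δ)) ≤
      2 ^ (3 / 2 + 3 * δ) * ∏ i, (1 + (k i : ℝ) ^ 2) ^ (-(1 / 2 + δ)) := by
  have h1 := one_le_nsq hk
  have hi : ∀ i, 1 + (k i : ℝ) ^ 2 ≤ 1 + nsq k := fun i => by
    have := Finset.single_le_sum (f := fun i => (k i : ℝ) ^ 2) (fun j _ => sq_nonneg _)
      (Finset.mem_univ i)
    have h' : (k i : ℝ) ^ 2 ≤ nsq k := this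
    linarith
  have h2 : nsq k ^ (-(3 / 2 + 3 * δ)) ≤ ((1 + nsq k) / 2) ^ (-(3 / 2 + 3 * δ)) :=
    Real.rpow_le_rpow_of_nonpos (by linarith) (by linarith) (by linarith)
  have h3 : ((1 + nsq k) / 2) ^ (-(3 / 2 + 3 * δ)) =
      2 ^ (3 / 2 + 3 * δ) * (1 + nsq k) ^ (-(3 / 2 + 3 * δ)) := by
    rw [Real.div_rpow (by linarith) (by norm_num), Real.rpow_neg (by norm_num : (0 : ℝ) ≤ 2)]
    field_simp
  have h4 : (1 + nsq k) ^ (-(3 / 2 + 3 * δ)) =
      ∏ _i : Fin 3, (1 + nsq k) ^ (-(1 / 2 + δ)) := by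
    rw [Finset.prod_const, Finset.card_univ, Fintype.card_fin, ← Real.rpow_natCast,
      ← Real.rpow_mul (by linarith)]
    congr 1
    push_cast
    ring
  rw [h3, h4] at h2
  refine h2.trans (mul_le_mul_of_nonneg_left ?_ (by positivity))
  refine Finset.prod_le_prod (fun i _ => ?_) fun i _ => ?_
  · have : 0 ≤ 1 + nsq k := by linarith
    positivity
  · exact Real.rpow_le_rpow_of_nonpos (by positivity) (hi i) (by linarith)

theorem lat (b : ℝ) (hb : 3 / 2 < b) : ∃ K : ℝ, 0 ≤ K ∧ ∀ n : ℕ,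
    ∑ k ∈ cub n, (if k = 0 then 0 else nsq k ^ (-b)) ≤ K := by
  obtain ⟨K, hK, h⟩ := one_dim ((b - 3 / 2) / 3) (by linarith)
  refine ⟨2 ^ b * K ^ 3, by positivity, fun n => ?_⟩
  have h1 : ∑ k ∈ cub n, (if k = 0 then 0 else nsq k ^ (-b)) ≤
      ∑ k ∈ cub n, 2 ^ b * ∏ i, (1 + (k i : ℝ) ^ 2) ^ (-(1 / 2 + (b - 3 / 2) / 3)) := by
    refine Finset.sum_le_sum fun k _ => ?_
    by_cases hk : k = 0
    · rw [if_pos hk]
      have : ∀ i, (0 : ℝ) ≤ (1 + (k i : ℝ) ^ 2) ^ (-(1 / 2 + (b - 3 / 2) / 3)) := fun i => by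
        positivity
      exact mul_nonneg (by positivity) (Finset.prod_nonneg fun i _ => this i)
    · rw [if_neg hk]
      have := nsq_rpow_le ((b - 3 / 2) / 3) (by linarith) hk
      have e : 3 / 2 + 3 * ((b - 3 / 2) / 3) = b := by ring
      rw [e] at this
      exact this
  refine h1.trans ?_
  rw [← Finset.mul_sum]
  refine mul_le_mul_of_nonneg_left ?_ (by positivity)
  have h2 : ∑ k ∈ cub n, ∏ i, (1 + (k i : ℝ) ^ 2) ^ (-(1 / 2 + (b - 3 / 2) / 3)) =
      ∏ _i : Fin 3, ∑ j ∈ Finset.Icc (-(n : ℤ)) n,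
        (1 + (j : ℝ) ^ 2) ^ (-(1 / 2 + (b - 3 / 2) / 3)) := by
    rw [Finset.prod_univ_sum]
    rfl
  rw [h2, Finset.prod_const, Finset.card_univ, Fintype.card_fin]
  refine pow_le_pow_left₀ (Finset.sum_nonneg fun j _ => by positivity) (h n) 3

/-- (S3) sums over triads -/
theorem t_S3 : S_S3 := by
  intro p η hp hη
  obtain ⟨K, hK, hlat⟩ := lat (2 * (3 / 4 + η)) (by linarith)
  refine ⟨4 ^ (p / 2 + (3 / 4 + η)) * (3 * Real.sqrt K), by positivity, fun n f hf f0 fn => ?_⟩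
  set a : ℝ := 3 / 4 + η with ha
  have a0 : 0 < a := by rw [ha]; linarith
  set G : Wv → ℝ := fun k => nsq k ^ (-a) * f k with hG
  set F : Wv → ℝ := fun k => nsq k ^ ((p / 2 + a) / 2) * f k with hF
  have hG0 : ∀ k, 0 ≤ G k := fun k => mul_nonneg (Real.rpow_nonneg (nsq_nonneg k) _) (hf k)
  have hF0 : ∀ k, 0 ≤ F k := fun k => mul_nonneg (Real.rpow_nonneg (nsq_nonneg k) _) (hf k)
  have Gn : ∀ k, k ∉ cub n → G k = 0 := fun k hk => by simp only [hG, fn k hk, mul_zero]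
  have Fn : ∀ k, k ∉ cub n → F k = 0 := fun k hk => by simp only [hF, fn k hk, mul_zero]
  have hterm : ∀ k l : Wv, mx k l (-(k + l)) ^ (p / 2) * (f k * f l * f (-(k + l))) ≤
      4 ^ (p / 2 + a) * (G k * (F l * F (-(k + l))) + G l * (F k * F (-(k + l))) +
        G (-(k + l)) * (F k * F l)) := by
    intro k l
    have hr : 0 ≤ 4 ^ (p / 2 + a) * (G k * (F l * F (-(k + l))) + G l * (F k * F (-(k + l))) +
        G (-(k + l)) * (F k * F l)) := by
      have g1 := mul_nonneg (hG0 k) (mul_nonneg (hF0 l) (hF0 (-(k + l))))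
      have g2 := mul_nonneg (hG0 l) (mul_nonneg (hF0 k) (hF0 (-(k + l))))
      have g3 := mul_nonneg (hG0 (-(k + l))) (mul_nonneg (hF0 k) (hF0 l))
      exact mul_nonneg (by positivity) (by linarith)
    by_cases hk : k = 0
    · rw [hk, f0]
      simp only [zero_mul, mul_zero]
      rw [hk] at hr
      exact hr
    by_cases hl : l = 0
    · rw [hl, f0]
      simp only [zero_mul, mul_zero]
      rw [hl] at hr
      exact hr
    by_cases hm : -(k + l) = 0
    · rw [hm, f0]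
      simp only [mul_zero]
      rw [hm] at hr
      exact hr
    have ht := triad p a hp a0 k l (-(k + l)) hk hl hm (by abel)
    have hfff : 0 ≤ f k * f l * f (-(k + l)) := mul_nonneg (mul_nonneg (hf k) (hf l)) (hf _)
    refine (mul_le_mul_of_nonneg_right ht hfff).trans (le_of_eq ?_)
    simp only [hG, hF]
    ring
  have hsum : ∑ k ∈ cub n, ∑ l ∈ cub n, mx k l (-(k + l)) ^ (p / 2) *
      (f k * f l * f (-(k + l))) ≤
      4 ^ (p / 2 + a) * (3 * ((∑ k ∈ cub n, G k) * ∑ k ∈ cub n, F k ^ 2)) := by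
    have h1 : ∑ k ∈ cub n, ∑ l ∈ cub n, mx k l (-(k + l)) ^ (p / 2) *
        (f k * f l * f (-(k + l))) ≤
        ∑ k ∈ cub n, ∑ l ∈ cub n, 4 ^ (p / 2 + a) *
          (G k * (F l * F (-(k + l))) + G l * (F k * F (-(k + l))) +
            G (-(k + l)) * (F k * F l)) :=
      Finset.sum_le_sum fun k _ => Finset.sum_le_sum fun l _ => hterm k l
    refine h1.trans ?_
    have h2 : ∑ k ∈ cub n, ∑ l ∈ cub n, 4 ^ (p / 2 + a) *
          (G k * (F l * F (-(k + l))) + G l * (F k * F (-(k + l))) +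
            G (-(k + l)) * (F k * F l)) =
        4 ^ (p / 2 + a) * ∑ k ∈ cub n, ∑ l ∈ cub n,
          (G k * (F l * F (-(k + l))) + G l * (F k * F (-(k + l))) +
            G (-(k + l)) * (F k * F l)) := by
      rw [Finset.mul_sum]
      refine Finset.sum_congr rfl fun k _ => ?_
      rw [Finset.mul_sum]
    rw [h2]
    exact mul_le_mul_of_nonneg_left (tri_sum n G F hG0 hF0 Gn Fn) (by positivity)
  have hGs : ∑ k ∈ cub n, G k ≤ Real.sqrt K * Real.sqrt (∑ k ∈ cub n, f k ^ 2) := by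
    have h1 : ∑ k ∈ cub n, G k =
        ∑ k ∈ cub n, (if k = 0 then 0 else nsq k ^ (-a)) * f k := by
      refine Finset.sum_congr rfl fun k _ => ?_
      by_cases hk : k = 0
      · simp only [hG, hk, f0, mul_zero]
      · simp only [hG, if_neg hk]
    rw [h1]
    refine (Real.sum_mul_le_sqrt_mul_sqrt _ _ _).trans ?_
    refine mul_le_mul_of_nonneg_right (Real.sqrt_le_sqrt ?_) (Real.sqrt_nonneg _)
    refine le_trans (le_of_eq ?_) (hlat n)
    refine Finset.sum_congr rfl fun k _ => ?_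
    by_cases hk : k = 0
    · simp [hk]
    · simp only [if_neg hk]
      rw [← Real.rpow_natCast, ← Real.rpow_mul (nsq_nonneg k)]
      congr 1
      push_cast
      ring
  have hFs : ∑ k ∈ cub n, F k ^ 2 = ∑ k ∈ cub n, nsq k ^ (p / 2 + 3 / 4 + η) * f k ^ 2 := by
    refine Finset.sum_congr rfl fun k _ => ?_
    simp only [hF]
    rw [mul_pow, ← Real.rpow_natCast (nsq k ^ ((p / 2 + a) / 2)), ← Real.rpow_mul (nsq_nonneg k)]
    congr 2
    rw [ha]
    push_cast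
    ring
  refine hsum.trans ?_
  rw [hFs]
  have hFF : 0 ≤ ∑ k ∈ cub n, nsq k ^ (p / 2 + 3 / 4 + η) * f k ^ 2 :=
    Finset.sum_nonneg fun k _ => mul_nonneg (Real.rpow_nonneg (nsq_nonneg k) _) (sq_nonneg _)
  have h5 := mul_le_mul_of_nonneg_right hGs hFF
  have h4 : (0 : ℝ) ≤ 4 ^ (p / 2 + a) := by positivity
  calc 4 ^ (p / 2 + a) * (3 * ((∑ k ∈ cub n, G k) *
        ∑ k ∈ cub n, nsq k ^ (p / 2 + 3 / 4 + η) * f k ^ 2))
      ≤ 4 ^ (p / 2 + a) * (3 * (Real.sqrt K * Real.sqrt (∑ k ∈ cub n, f k ^ 2) *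
        ∑ k ∈ cub n, nsq k ^ (p / 2 + 3 / 4 + η) * f k ^ 2)) := by
        refine mul_le_mul_of_nonneg_left ?_ h4
        linarith
    _ = _ := by ring

end Pool.Agent.U401.DS
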